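import Mathlib
import Pool.Agent.H56.Sb3

namespace Pool.Agent.Results.MP_a7ff82_nt.ModCube
open Finset Pool.Agent.H56.Sb2 Pool.Agent.H56.Sb3

theorem tform (k : ℕ) :
    (∏ j ∈ range k, ((1/3 : ℚ) + j)) ^ 4 * ((2 * k).factorial : ℚ) /
      ((k.factorial : ℚ) ^ 4 * ∏ j ∈ range (2 * k), ((2/3 : ℚ) + j)) =
    ∏ j ∈ range k, (((1/3 : ℚ) + j) ^ 3 * (1/2 + j) * (((j : ℚ) + 1)⁻¹) ^ 3 * (5/6 + (j : ℚ))⁻¹) := by
  induction k with
  | zero => simp
  | succ k ih =>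
    rw [prod_range_succ _ k, prod_range_succ _ k, ← ih, show 2 * (k + 1) = 2 * k + 1 + 1 by ring,
      prod_range_succ, prod_range_succ, Nat.factorial_succ, Nat.factorial_succ,
      Nat.factorial_succ k]
    have h1 : (∏ j ∈ range (2 * k), ((2/3 : ℚ) + j)) ≠ 0 := (poch_pos (by norm_num) _).ne'
    have h2 : (k.factorial : ℚ) ≠ 0 := by positivity
    generalize (∏ j ∈ range (2 * k), ((2/3 : ℚ) + j)) = A at *
    generalize (∏ j ∈ range k, ((1/3 : ℚ) + j)) = A'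
    push_cast
    field_simp
    ring

theorem refl_poch (x : ℚ) (n : ℕ) : poch (1 - x - n) n = (-1) ^ n * poch x n := by
  unfold poch
  rw [← Finset.prod_range_reflect, ← card_range n, ← Finset.prod_const, card_range,
    ← Finset.prod_mul_distrib]
  refine Finset.prod_congr rfl fun j hj => ?_
  have hj' : j < n := mem_range.1 hj
  rw [show n - 1 - j = n - (j + 1) by omega, Nat.cast_sub (by omega)]
  push_cast; ring

theorem exact_sum (n : ℕ) :
    ∑ k ∈ range (n + 1), (6 * (k : ℚ) + 1) * ∏ j ∈ range k,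
      (((1/3 : ℚ) + j) * ((j : ℚ) - n) * (n + 2/3 + j) * (1/2 + j) /
        (((j : ℚ) + 1) * (2/3 - n + j) * (5/6 + j) * (4/3 + n + j))) = 3 * n + 1 := by
  have hc : ∀ j : ℕ, (4/3 : ℚ) - (n + 2/3) + j ≠ 0 := by
    intro j h
    have : (3 * (j : ℤ) + 2 : ℤ) = 3 * n := by
      have : (3 * (j : ℚ) + 2) = 3 * n := by linarith
      exact_mod_cast this
    omega
  have h := wz (n + 2/3) hc n
  have hterm : ∀ k ≤ n, ∏ j ∈ range k,
      (((1/3 : ℚ) + j) * ((j : ℚ) - n) * (n + 2/3 + j) * (1/2 + j) /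
        (((j : ℚ) + 1) * (2/3 - n + j) * (5/6 + j) * (4/3 + n + j))) =
      (n.factorial * poch (4/3) n) *
        (B (n + 2/3) k / ((n - k).factorial * poch (4/3) (n + k))) := by
    intro k
    induction k with
    | zero =>
      intro _
      have h1 := (poch_pos (x := 4/3) (by norm_num) n).ne'
      have h2 : (n.factorial : ℚ) ≠ 0 := by positivity
      simp only [B, poch, range_zero, prod_empty, Nat.sub_zero, Nat.add_zero] at h1 ⊢
      field_simp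
      simp
    | succ k ih =>
      intro hk
      rw [prod_range_succ, ih (by omega)]
      obtain ⟨d, hd⟩ : ∃ d, n = k + d + 1 := ⟨n - k - 1, by omega⟩
      have hdq : (n : ℚ) = k + d + 1 := by exact_mod_cast hd
      rw [show n - k = d + 1 by omega, show n - (k + 1) = d by omega, ← add_assoc]
      simp only [B, poch_succ, Nat.factorial_succ, pow_succ]
      have h1 := (poch_pos (x := 4/3) (by norm_num) (n + k)).ne'
      have h2 := (poch_pos (x := 5/6) (by norm_num) k).ne'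
      have h3 : poch (4/3 - (n + 2/3)) k ≠ 0 := prod_ne_zero_iff.2 fun j _ => hc j
      have h4 := hc k
      have h5 : (d.factorial : ℚ) ≠ 0 := by positivity
      have h6 : (k.factorial : ℚ) ≠ 0 := by positivity
      have e1 : (2/3 - n + k : ℚ) = 4/3 - (n + 2/3) + k := by ring
      have e2 : ((k : ℚ) - n) = -(d + 1) := by linarith
      rw [e1, e2]
      generalize (4/3 - ((n : ℚ) + 2/3) + k) = u at *
      push_cast
      field_simp
      ring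
  have h2 : ∑ k ∈ range (n + 1), (6 * (k : ℚ) + 1) * ∏ j ∈ range k,
      (((1/3 : ℚ) + j) * ((j : ℚ) - n) * (n + 2/3 + j) * (1/2 + j) /
        (((j : ℚ) + 1) * (2/3 - n + j) * (5/6 + j) * (4/3 + n + j))) =
      3 * (n.factorial * poch (4/3) n) * ∑ k ∈ range (n + 1),
        (1/3 + 2 * k) * B (n + 2/3) k / ((n - k).factorial * poch (4/3) (n + k)) := by
    rw [Finset.mul_sum]
    refine Finset.sum_congr rfl fun k hk => ?_
    rw [hterm k (by simpa [Nat.lt_succ_iff] using hk)]; ring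
  have h3 : poch (4/3) n = poch (1/3) n * (3 * n + 1) := by
    clear h2 hterm h hc
    induction n with
    | zero => simp [poch]
    | succ n ih => rw [poch_succ, poch_succ, ih]; push_cast; ring
  rw [h2, h, show (5/6 : ℚ) - (n + 2/3) = 1 - 5/6 - n by ring,
    show (4/3 : ℚ) - (n + 2/3) = 1 - 1/3 - n by ring, refl_poch, refl_poch, h3]
  have h4 := (poch_pos (x := 1/3) (by norm_num) n).ne'
  have h5 := (poch_pos (x := 5/6) (by norm_num) n).ne'
  have h6 : (n.factorial : ℚ) ≠ 0 := by positivity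
  field_simp

theorem result (p : ℕ) (hp : p.Prime) (h3 : p % 3 = 1) :
    ∃ a b : ℤ, ¬ (p : ℤ) ∣ b ∧
      ((∑ k ∈ range ((p - 1) / 3 + 1), (6 * (k : ℚ) + 1) *
        ((∏ j ∈ range k, ((1/3 : ℚ) + j)) ^ 4 * ((2 * k).factorial : ℚ) /
          ((k.factorial : ℚ) ^ 4 * ∏ j ∈ range (2 * k), ((2/3 : ℚ) + j)))) - p) / (p : ℚ) ^ 3
        = a / b := by
  have : Fact p.Prime := ⟨hp⟩
  obtain ⟨n, hn⟩ : ∃ n, p = 3 * n + 1 := ⟨p / 3, by omega⟩
  have hp2 := hp.two_le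
  have hodd : p % 2 = 1 := by
    rcases hp.eq_two_or_odd with h | h
    · omega
    · exact h
  have hev : Even n := by rw [Nat.even_iff]; omega
  have hpq : (p : ℚ) = 3 * n + 1 := by exact_mod_cast hn
  have hp0 : (p : ℚ) ≠ 0 := by positivity
  have hpm : (p : ℚ) ∈ Zp p := natCast_mem _ _
  have hnd : ∀ a : ℤ, a ≠ 0 → -(p : ℤ) < a → a < p → ¬ (p : ℤ) ∣ a := by
    intro a h0 h1 h2 h
    exact h0 (Int.eq_zero_of_abs_lt_dvd h (abs_lt.2 ⟨h1, h2⟩))
  rw [show (p - 1) / 3 = n by omega]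
  simp_rw [tform]
  have i2 : ((2 : ℚ))⁻¹ ∈ Zp p := by simpa using inv_mem_nat (p := p) 2 (by omega) (by omega)
  have i3 : ((3 : ℚ))⁻¹ ∈ Zp p := by simpa using inv_mem_nat (p := p) 3 (by omega) (by omega)
  have m13 : (1/3 : ℚ) ∈ Zp p := by simpa using i3
  have m12 : (1/2 : ℚ) ∈ Zp p := by simpa using i2
  have m56 : (5/6 : ℚ) ∈ Zp p := by
    rw [show (5/6 : ℚ) = 1/2 + 1/3 by norm_num]; exact add_mem m12 m13
  have nm : ∀ j : ℕ, (j : ℚ) ∈ Zp p := fun j => natCast_mem _ _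
  have m3 : (3 : ℚ) ∈ Zp p := by simpa using nm 3
  have uj : ∀ j < n, ((j : ℚ) + 1) ≠ 0 ∧ ((j : ℚ) + 1)⁻¹ ∈ Zp p := fun j hj =>
    inv_frac _ (j + 1) 1 (hnd _ (by omega) (by omega) (by omega)) one_ne_zero (by simp)
  have u56 : ∀ j < n, (5/6 + (j : ℚ)) ≠ 0 ∧ (5/6 + (j : ℚ))⁻¹ ∈ Zp p := fun j hj =>
    inv_frac _ (6 * j + 5) 6 (fun h => hnd (6 * j + 5 - p) (by omega) (by omega) (by omega)
      (dvd_sub h (dvd_refl _))) (by norm_num) (by push_cast; ring)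
  have uh : ∀ j < n, (1/2 - n + (j : ℚ)) ≠ 0 ∧ (1/2 - n + (j : ℚ))⁻¹ ∈ Zp p := fun j hj =>
    inv_frac _ (1 - 2 * n + 2 * j) 2 (hnd _ (by omega) (by omega) (by omega)) (by norm_num)
      (by push_cast; ring)
  have ua : ∀ j < n, (3 * (j : ℚ) + 1) ≠ 0 ∧ (3 * (j : ℚ) + 1)⁻¹ ∈ Zp p := fun j hj =>
    inv_frac _ (3 * j + 1) 1 (hnd _ (by omega) (by omega) (by omega)) one_ne_zero (by simp)
  have ub : ∀ j < n, (3 * ((j : ℚ) + 1)) ≠ 0 ∧ (3 * ((j : ℚ) + 1))⁻¹ ∈ Zp p := fun j hj =>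
    inv_frac _ (3 * (j + 1)) 1 (hnd _ (by omega) (by omega) (by omega)) one_ne_zero (by simp)
  have uc : ∀ j < n, (3 * ((j : ℚ) - n)) ≠ 0 ∧ (3 * ((j : ℚ) - n))⁻¹ ∈ Zp p := fun j hj =>
    inv_frac _ (3 * (j - n)) 1 (hnd _ (by omega) (by omega) (by omega)) one_ne_zero (by simp)
  have ud : ∀ j < n, (3 * ((j : ℚ) + 1) - p) ≠ 0 ∧ (3 * ((j : ℚ) + 1) - p)⁻¹ ∈ Zp p := fun j hj =>
    inv_frac _ (3 * (j + 1) - p) 1 (hnd _ (by omega) (by omega) (by omega)) one_ne_zero (by simp)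
  have ue : ∀ j < n, (3 * ((j : ℚ) + 1) + p) ≠ 0 ∧ (3 * ((j : ℚ) + 1) + p)⁻¹ ∈ Zp p := fun j hj =>
    inv_frac _ (3 * (j + 1) + p) 1 (fun h => hnd (3 * (j + 1)) (by omega) (by omega) (by omega)
      (by simpa using dvd_sub h (dvd_refl (p : ℤ)))) one_ne_zero (by simp)
  set ω : ℕ → ℚ := fun j => ((1/3 : ℚ) + j) ^ 3 * (1/2 + j) * (((j : ℚ) + 1)⁻¹) ^ 3 *
    (5/6 + (j : ℚ))⁻¹ with hω
  set ρ : ℕ → ℚ := fun j => ((j : ℚ) - n) ^ 3 * (1/2 + j) * (((j : ℚ) + 1)⁻¹) ^ 3 *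
    (1/2 - n + (j : ℚ))⁻¹ with hρ
  set s : ℕ → ℚ := fun j => ((3 * ((j : ℚ) + 1))⁻¹) ^ 2 - ((3 * (j : ℚ) + 1)⁻¹) ^ 2 with hs
  set σ : ℕ → ℚ := fun j => ((3 * ((j : ℚ) + 1))⁻¹) ^ 2 - ((3 * ((j : ℚ) - n))⁻¹) ^ 2 with hσ
  set r : ℕ → ℚ := fun j => ((3 * (j : ℚ) + 1) ^ 2 - (p : ℚ) ^ 2) * ((3 * (j : ℚ) + 1)⁻¹) ^ 2 *
    (3 * ((j : ℚ) + 1)) ^ 2 * (3 * ((j : ℚ) + 1) - p)⁻¹ * (3 * ((j : ℚ) + 1) + p)⁻¹ with hr
  have cω : ∀ j < n, Cg p (ω j) (ρ j) := by
    intro j hj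
    have c1 : Cg p (1/3 + (j : ℚ)) ((j : ℚ) - n) :=
      ⟨add_mem m13 (nm j), sub_mem (nm j) (nm n), 1/3, m13, by rw [hpq]; ring⟩
    have c2 : Cg p (5/6 + (j : ℚ)) (1/2 - n + (j : ℚ)) :=
      ⟨add_mem m56 (nm j), add_mem (sub_mem m12 (nm n)) (nm j), 1/3, m13, by rw [hpq]; ring⟩
    exact (((c1.pow 3).mul (Cg.refl (add_mem m12 (nm j)))).mul
      (Cg.refl (pow_mem (uj j hj).2 3))).mul
      (c2.inv (u56 j hj).1 (uh j hj).1 (u56 j hj).2 (uh j hj).2)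
  have cs : ∀ j < n, Cg p (s j) (σ j) := by
    intro j hj
    have c1 : Cg p (3 * (j : ℚ) + 1) (3 * ((j : ℚ) - n)) :=
      ⟨add_mem (mul_mem m3 (nm j)) (one_mem _), mul_mem m3 (sub_mem (nm j) (nm n)), 1, one_mem _,
        by rw [hpq]; ring⟩
    exact (Cg.refl (pow_mem (ub j hj).2 2)).sub
      ((c1.inv (ua j hj).1 (uc j hj).1 (ua j hj).2 (uc j hj).2).pow 2)
  have hanti := antisym n hev ρ σ (by
      intro j hj
      have e : ((n - 1 - j : ℕ) : ℚ) = n - 1 - j := by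
        rw [show n - 1 - j = n - (j + 1) by omega, Nat.cast_sub (by omega)]; push_cast; ring
      have a1 := (uj j hj).1
      have a2 := (uh j hj).1
      have a3 : (j : ℚ) - n ≠ 0 := fun h => (uc j hj).1 (by rw [h]; simp)
      have a4 : (1/2 + (j : ℚ)) ≠ 0 := by positivity
      simp only [hρ, e]
      rw [show (n : ℚ) - 1 - j - n = -(j + 1) by ring,
        show (1/2 + ((n : ℚ) - 1 - j)) = -(1/2 - n + j) by ring,
        show ((n : ℚ) - 1 - j + 1) = -(j - n) by ring,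
        show (1/2 - (n : ℚ) + (n - 1 - j)) = -(1/2 + j) by ring]
      generalize (1/2 - (n : ℚ) + j) = A at *
      generalize ((j : ℚ) - n) = A2 at *
      generalize (1/2 + (j : ℚ)) = A3 at *
      generalize ((j : ℚ) + 1) = A4 at *
      field_simp)
    (by
      intro j hj
      have e : ((n - 1 - j : ℕ) : ℚ) = n - 1 - j := by
        rw [show n - 1 - j = n - (j + 1) by omega, Nat.cast_sub (by omega)]; push_cast; ring
      simp only [hσ, e]
      rw [show (3 : ℚ) * (n - 1 - j - n) = -(3 * (j + 1)) by ring,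
        show (3 : ℚ) * (n - 1 - j + 1) = -(3 * (j - n)) by ring, inv_neg, inv_neg]
      ring)
  have hC : Cg p (∑ k ∈ range (n + 1), (6 * (k : ℚ) + 1) * (∏ j ∈ range k, ω j) *
      ∑ j ∈ range k, s j) (∑ k ∈ range (n + 1), 3 * ((2 * (k : ℚ) - n) * (∏ j ∈ range k, ρ j) *
      ∑ j ∈ range k, σ j)) := by
    refine Cg.sum _ fun k hk => ?_
    have c1 : Cg p (6 * (k : ℚ) + 1) (3 * (2 * (k : ℚ) - n)) :=
      ⟨by simpa using nm (6 * k + 1), mul_mem m3 (sub_mem (by simpa using nm (2 * k)) (nm n)),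
        1, one_mem _, by rw [hpq]; ring⟩
    have := (c1.mul (Cg.prod k fun j hj => cω j (by omega))).mul
      (Cg.sum k fun j hj => cs j (by omega))
    rwa [mul_assoc (3 : ℚ), mul_assoc (3 : ℚ)] at this
  rw [← Finset.mul_sum, hanti] at hC
  obtain ⟨_, _, y, hy, hye⟩ := hC
  have hrexp : ∀ j < n, ∃ z ∈ Zp p, r j = 1 + (p : ℚ) ^ 2 * s j + (p : ℚ) ^ 3 * z := by
    intro j hj
    refine ⟨p * s j * (3 * ((j : ℚ) + 1) - p)⁻¹ * (3 * ((j : ℚ) + 1) + p)⁻¹,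
      mul_mem (mul_mem (mul_mem hpm (cs j hj).1) (ud j hj).2) (ue j hj).2, ?_⟩
    have a1 := (ua j hj).1
    have a2 := (ub j hj).1
    have a3 := (ud j hj).1
    have a4 := (ue j hj).1
    simp only [hr, hs]
    generalize (3 * (j : ℚ) + 1) = A at *
    generalize (3 * ((j : ℚ) + 1)) = A2 at *
    field_simp
    ring
  have hz : ∀ k, ∃ z, z ∈ Zp p ∧ (k ≤ n → ∏ j ∈ range k, r j =
      1 + (p : ℚ) ^ 2 * (∑ j ∈ range k, s j) + (p : ℚ) ^ 3 * z) := by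
    intro k
    by_cases hk : k ≤ n
    · obtain ⟨z, hz, e⟩ := prod_expand (p := p) k r s (fun j hj => (cs j (by omega)).1)
        (fun j hj => hrexp j (by omega))
      exact ⟨z, hz, fun _ => e⟩
    · exact ⟨0, zero_mem _, fun h => absurd h hk⟩
  choose z hz hze using hz
  have hE := exact_sum n
  have hE2 : ∑ k ∈ range (n + 1), (6 * (k : ℚ) + 1) * ∏ j ∈ range k,
      (((1/3 : ℚ) + j) * ((j : ℚ) - n) * (n + 2/3 + j) * (1/2 + j) /
        (((j : ℚ) + 1) * (2/3 - n + j) * (5/6 + j) * (4/3 + n + j))) =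
      ∑ k ∈ range (n + 1), (6 * (k : ℚ) + 1) * ∏ j ∈ range k, ω j
      + (p : ℚ) ^ 2 * ∑ k ∈ range (n + 1), (6 * (k : ℚ) + 1) * (∏ j ∈ range k, ω j) *
        ∑ j ∈ range k, s j
      + (p : ℚ) ^ 3 * ∑ k ∈ range (n + 1), (6 * (k : ℚ) + 1) * (∏ j ∈ range k, ω j) * z k := by
    rw [Finset.mul_sum, Finset.mul_sum, ← Finset.sum_add_distrib, ← Finset.sum_add_distrib]
    refine Finset.sum_congr rfl fun k hk => ?_
    have hk' : k ≤ n := by simpa [Nat.lt_succ_iff] using hk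
    have : ∏ j ∈ range k, (((1/3 : ℚ) + j) * ((j : ℚ) - n) * (n + 2/3 + j) * (1/2 + j) /
        (((j : ℚ) + 1) * (2/3 - n + j) * (5/6 + j) * (4/3 + n + j))) =
        (∏ j ∈ range k, ω j) * ∏ j ∈ range k, r j := by
      rw [← Finset.prod_mul_distrib]
      refine Finset.prod_congr rfl fun j hj => ?_
      have hj' : j < n := by simp at hj; omega
      have a3 := (ud j hj').1
      simp only [hω, hr]
      rw [show (2/3 - (n : ℚ) + j) = (3 * ((j : ℚ) + 1) - p) / 3 by rw [hpq]; ring,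
        show (4/3 + (n : ℚ) + j) = (3 * ((j : ℚ) + 1) + p) / 3 by rw [hpq]; ring,
        show ((j : ℚ) - n) = (3 * j + 1 - p) / 3 by rw [hpq]; ring,
        show ((n : ℚ) + 2/3 + j) = (3 * j + 1 + p) / 3 by rw [hpq]; ring]
      generalize (3 * ((j : ℚ) + 1) - p) = A at *
      field_simp
      ring
    rw [this, hze k hk']; ring
  have hW : ∑ k ∈ range (n + 1), (6 * (k : ℚ) + 1) * (∏ j ∈ range k, ω j) * z k ∈ Zp p :=
    sum_mem fun k hk => mul_mem (mul_mem (by simpa using nm (6 * k + 1))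
      (prod_mem fun j hj => (cω j (by simp at hj hk; omega)).1)) (hz k)
  have hfin : (∑ k ∈ range (n + 1), (6 * (k : ℚ) + 1) * ∏ j ∈ range k, ω j - p) / (p : ℚ) ^ 3
      = -(y + ∑ k ∈ range (n + 1), (6 * (k : ℚ) + 1) * (∏ j ∈ range k, ω j) * z k) := by
    rw [div_eq_iff (pow_ne_zero 3 hp0)]
    rw [← hpq] at hE
    linear_combination hE - hE2 - (p : ℚ) ^ 2 * hye
  rw [hfin]
  exact (neg_mem (add_mem hy hW) : _ ∈ Zp p)

end Pool.Agent.Results.MP_a7ff82_nt.ModCube
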